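import Pool.Agent.Helper28.Sus.Goals

/-!
# SUS-MEM: every small memory has a number
-/

set_option autoImplicit false

namespace Pool.Agent.Helper32.Sus

open Pool.Agent.Helper65.LinSpace Pool.Agent.Helper28.Sus Finset

theorem num_lt' (w : List Bool) : num w < 2 ^ (w.length + 1) := by
  induction w with
  | nil => norm_num [num]
  | cons b w ih =>
    simp only [num, List.length_cons]
    have hb : b.toNat ≤ 1 := by cases b <;> simp
    rw [pow_succ]
    omega

/-- the code of a piece -/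
def pc (S I a j v : ℕ) : ℕ := a + 2 ^ (S + 1) * (j + I * v)

theorem pc_mod {S I a j v : ℕ} (ha : a < 2 ^ (S + 1)) : pc S I a j v % 2 ^ (S + 1) = a := by
  unfold pc
  rw [Nat.add_mul_mod_self_left, Nat.mod_eq_of_lt ha]

theorem pc_div {S I a j v : ℕ} (ha : a < 2 ^ (S + 1)) :
    pc S I a j v / 2 ^ (S + 1) = j + I * v := by
  unfold pc
  rw [Nat.add_mul_div_left _ _ (by positivity), Nat.div_eq_of_lt ha, zero_add]

theorem pc_lt {S I a j v b : ℕ} (ha : a < 2 ^ (S + 1)) (hj : j < I) (hv : v < 2 ^ b) :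
    pc S I a j v < 2 ^ (S + 1) * (I * 2 ^ b) := by
  unfold pc
  have h1 : j + I * v + 1 ≤ I * 2 ^ b := by
    have : I * (v + 1) ≤ I * 2 ^ b := Nat.mul_le_mul_left _ hv
    rw [Nat.mul_add, Nat.mul_one] at this
    omega
  have h2 : 2 ^ (S + 1) * (j + I * v + 1) ≤ 2 ^ (S + 1) * (I * 2 ^ b) :=
    Nat.mul_le_mul_left _ h1
  rw [Nat.mul_add, Nat.mul_one] at h2
  omega

/-- `MEM_stmt` with the additional hypothesis `0 < P.I` (which is needed if `F` is empty) -/
theorem mem (P : Prm) (F : Finset (List Bool)) (M : List Bool → List Bool)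
    (hb : 1 ≤ P.b) (hI : 0 < P.I)
    (hF : ∀ i ∈ F, i.length ≤ P.S ∧ (M i).length ≤ P.Z ∧ (M i).length / P.b < P.I)
    (hE : ∑ i ∈ F, ((M i).length / P.b + 1) ≤ P.E) :
    ∃ D < P.bd ^ P.E, ∀ i : List Bool, P.lk D (num i) = if i ∈ F then num (M i) else 0 := by
  classical
  let T : Finset (Σ _ : List Bool, ℕ) := F.sigma fun i => range ((M i).length / P.b + 1)
  have hTc : T.card ≤ P.E := by
    simp only [T]
    rw [card_sigma]
    simpa using hE
  let val : List Bool → ℕ → ℕ := fun i j => dig (2 ^ P.b) (num (M i)) j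
  let g : (Σ _ : List Bool, ℕ) → ℕ := fun t => pc P.S P.I (num t.1) t.2 (val t.1 t.2)
  let eqv : T ≃ Fin T.card := T.equivFin
  let en : ℕ → ℕ := fun e => if h : e < T.card then g (eqv.symm ⟨e, h⟩) else 0
  have hT : ∀ t ∈ T, num t.1 < 2 ^ (P.S + 1) ∧ t.2 < P.I ∧ P.b * t.2 ≤ P.Z := by
    intro t ht
    obtain ⟨h1, h2⟩ := mem_sigma.1 ht
    obtain ⟨h3, h4, h5⟩ := hF _ h1
    have h6 := mem_range.1 h2
    refine ⟨(num_lt' _).trans_le (Nat.pow_le_pow_right (by norm_num) (by omega)), by omega, ?_⟩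
    have h7 : P.b * t.2 ≤ P.b * ((M t.1).length / P.b) := Nat.mul_le_mul_left _ (by omega)
    have h8 := Nat.mul_div_le (M t.1).length P.b
    omega
  have hval : ∀ i j, val i j < 2 ^ P.b := fun i j => dig_lt (by positivity) _ _
  have hbd : P.bd = 2 ^ (P.S + 1) * (P.I * 2 ^ P.b) := rfl
  have hglt : ∀ t ∈ T, g t < P.bd := by
    intro t ht
    obtain ⟨h1, h2, _⟩ := hT t ht
    rw [hbd]
    exact pc_lt h1 h2 (hval _ _)
  have hbd0 : 0 < P.bd := by
    rw [hbd]
    positivity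
  have hen : ∀ e, en e < P.bd := by
    intro e
    simp only [en]
    split_ifs with h
    · exact hglt _ (eqv.symm ⟨e, h⟩).2
    · exact hbd0
  refine ⟨tab P.bd P.E en, tab_lt fun e _ => hen e, fun i => ?_⟩
  have h1 : P.lk (tab P.bd P.E en) (num i) = ∑ e ∈ range P.E, eq01 (en e % 2 ^ (P.S + 1)) (num i) *
      (en e / 2 ^ (P.S + 1) / P.I *
        2 ^ min (P.b * (en e / 2 ^ (P.S + 1) % P.I)) (P.Z + 1)) := by
    unfold Prm.lk
    refine sum_congr rfl fun e he => ?_
    have : P.en (tab P.bd P.E en) e = en e := by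
      unfold Prm.en
      exact dig_tab (fun e _ => hen e) (mem_range.1 he)
    rw [this]
  rw [h1]
  let h : (Σ _ : List Bool, ℕ) → ℕ := fun t => eq01 (g t % 2 ^ (P.S + 1)) (num i) *
      (g t / 2 ^ (P.S + 1) / P.I * 2 ^ min (P.b * (g t / 2 ^ (P.S + 1) % P.I)) (P.Z + 1))
  have h2 : ∑ e ∈ range P.E, eq01 (en e % 2 ^ (P.S + 1)) (num i) *
      (en e / 2 ^ (P.S + 1) / P.I *
        2 ^ min (P.b * (en e / 2 ^ (P.S + 1) % P.I)) (P.Z + 1)) =
      ∑ e ∈ range T.card, eq01 (en e % 2 ^ (P.S + 1)) (num i) *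
      (en e / 2 ^ (P.S + 1) / P.I *
        2 ^ min (P.b * (en e / 2 ^ (P.S + 1) % P.I)) (P.Z + 1)) := by
    symm
    refine sum_subset (range_subset_range.2 hTc) fun e _ he => ?_
    have h3 : en e = 0 := by
      simp only [en]
      rw [dif_neg (fun h => he (mem_range.2 h))]
    have h4 : eq01 (en e % 2 ^ (P.S + 1)) (num i) = 0 := by
      rw [h3, Nat.zero_mod]
      unfold eq01
      rw [if_neg (num_pos i).ne]
    rw [h4, zero_mul]
  have h5 : ∑ e ∈ range T.card, eq01 (en e % 2 ^ (P.S + 1)) (num i) *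
      (en e / 2 ^ (P.S + 1) / P.I *
        2 ^ min (P.b * (en e / 2 ^ (P.S + 1) % P.I)) (P.Z + 1)) = ∑ t ∈ T, h t := by
    rw [← Fin.sum_univ_eq_sum_range (fun e => eq01 (en e % 2 ^ (P.S + 1)) (num i) *
      (en e / 2 ^ (P.S + 1) / P.I *
        2 ^ min (P.b * (en e / 2 ^ (P.S + 1) % P.I)) (P.Z + 1))), ← eqv.sum_comp,
      ← Finset.sum_coe_sort T h]
    refine sum_congr rfl fun t _ => ?_
    have h6 : en (eqv t) = g t := by
      simp only [en]
      rw [dif_pos (eqv t).2]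
      simp
    simp only [h6, h]
  have h7 : ∀ t ∈ T, h t = if t.1 = i then val i t.2 * (2 ^ P.b) ^ t.2 else 0 := by
    intro t ht
    obtain ⟨h8, h9, h10⟩ := hT t ht
    simp only [h, g]
    rw [pc_mod h8, pc_div h8, Nat.add_mul_mod_self_left, Nat.mod_eq_of_lt h9,
      Nat.add_mul_div_left _ _ hI, Nat.div_eq_of_lt h9, zero_add, min_eq_left (by omega), pow_mul]
    by_cases hi : t.1 = i
    · rw [if_pos hi, hi]
      unfold eq01
      rw [if_pos rfl, one_mul]
    · rw [if_neg hi]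
      unfold eq01
      rw [if_neg (fun h => hi (num_injective h)), zero_mul]
  rw [h2, h5, sum_congr rfl h7]
  simp only [T]
  rw [sum_sigma]
  by_cases hi : i ∈ F
  · rw [if_pos hi, sum_eq_single i]
    · simp only [if_true]
      have h11 : ∑ j ∈ range ((M i).length / P.b + 1), val i j * (2 ^ P.b) ^ j =
          tab (2 ^ P.b) ((M i).length / P.b + 1) (dig (2 ^ P.b) (num (M i))) := rfl
      rw [h11]
      refine tab_dig _ _ ((num_lt' _).trans_le ?_)
      rw [← pow_mul]
      refine Nat.pow_le_pow_right (by norm_num) ?_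
      have h12 := Nat.lt_mul_div_succ (M i).length (show 0 < P.b by omega)
      omega
    · intro j _ hj
      exact sum_eq_zero fun x _ => if_neg hj
    · intro h
      exact absurd hi h
  · rw [if_neg hi]
    refine sum_eq_zero fun j hj => sum_eq_zero fun x _ => ?_
    rw [if_neg]
    intro h13
    exact hi (h13 ▸ hj)

end Pool.Agent.Helper32.Sus
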